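import Mathlib
import Pool.Agent.LibDFG.AllGraphs

namespace Pool.Agent.Results.MP_331a15_co.AllGraphs

open SimpleGraph Pool.Agent.LibDFG

/-- For every finite graph `H` of chromatic number `r ≥ 4`, and of chromatic number `3` if `H` is
contained in no complete bipartite graph with two disjoint edges added to one side, the threshold
for graphs of large order equals `(2 r - 4) / (3 r - 5)`. -/
theorem result {W : Type} [Fintype W] (H : SimpleGraph W) (r : ℕ)
    (hr : H.chromaticNumber = r) (h : 4 ≤ r ∨ (r = 3 ∧ ∀ m, H.Free (twoEdges m))) :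
    deltaCycLarge H = (2 * (r : ℝ) - 4) / (3 * (r : ℝ) - 5) :=
  all_graphs H r hr h

end Pool.Agent.Results.MP_331a15_co.AllGraphs
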