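import Mathlib
import Pool.Agent.LibDFG.TriangleValue
import Pool.Agent.LibDFG.CompleteValue

namespace Pool.Agent.Results.MP_331a15_co.CompleteGraphsAll

open SimpleGraph Pool.Agent.LibDFG

/-- The threshold of every complete graph `K_r`, `r ≥ 3`: it is `1 / 3` for `r = 3` and
`(2 r - 4) / (3 r - 5)` for `r ≥ 4`. -/
theorem result (r : ℕ) (hr : 3 ≤ r) :
    deltaCyc (completeGraph (Fin r)) =
      if r = 3 then (1 : ℝ) / 3 else (2 * (r : ℝ) - 4) / (3 * (r : ℝ) - 5) := by
  by_cases h : r = 3
  · subst h
    rw [if_pos rfl]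
    exact triangle_value
  · rw [if_neg h]
    exact complete_value r (by omega)

end Pool.Agent.Results.MP_331a15_co.CompleteGraphsAll
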