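import Mathlib
import Pool.Agent.LibDFG.LongCycle

namespace Pool.Agent.Results.MP_331a15_co.LongCycles

open SimpleGraph Pool.Agent.LibDFG

/-- The threshold of every cycle of length at least `8`. -/
theorem result (l : ℕ) (hl : 8 ≤ l) :
    deltaCyc (cycleGraph l) =
      2 * (((l - 2) / 3 : ℕ) : ℝ) / (3 * (((l - 2) / 3 : ℕ) : ℝ) + 1) :=
  long_cycle l hl

end Pool.Agent.Results.MP_331a15_co.LongCycles
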