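import Mathlib
import Pool.Agent.LibDFG.OddCycle

namespace Pool.Agent.Results.MP_331a15_co.OddCycles

open SimpleGraph Pool.Agent.LibDFG

/-- The threshold, for graphs of large order, of every odd cycle of length at least `5` equals
`3 / 10`. -/
theorem result (k : ℕ) (hk : 2 ≤ k) : deltaCycLarge (cycleGraph (2 * k + 1)) = 3 / 10 :=
  odd_cycle_large k hk

end Pool.Agent.Results.MP_331a15_co.OddCycles
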